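import Mathlib
import Pool.Agent.Helper117_HT.BdR
import Pool.Agent.Helper117_HT.Chr
import Pool.Agent.Helper117_HT.Frob

/-!
# A pure and integral `l`-adic character which is not de Rham

For every number field `F` and every prime `l` there is a continuous character `ρ` of the absolute
Galois group of `F` with values in the algebraic closure of `ℚ_l`, unramified at all finite places
not above `l`, whose Weil-Deligne representations at the finite places not above `l` are all
integral and pure of weight `1`, and which is not de Rham at any place above `l`. It is a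
half-integral power of the cyclotomic character: on a subgroup of finite index its square is the
inverse of the cyclotomic character.

So condition 2 of the integral refinement of the Fontaine-Mazur conjecture does not imply
condition 1 (nor condition 3, which implies condition 1 by a theorem of Faltings).
-/

set_option autoImplicit false

noncomputable section

open NumberField TensorProduct

namespace Pool.Agent.Results.MP_395897_nt.HalfTateTwist

open Pool.Agent.W292.FM Pool.Agent.Helper117_HT

universe u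

/-! ### Vectors and matrices over the algebraic closure of `ℚ_l` -/

/-- The `n × n` matrices over the algebraic closure of `ℚ_l`. -/
abbrev Mat (l : ℕ) [Fact l.Prime] (n : ℕ) : Type := Matrix (Fin n) (Fin n) (PadicAlgCl l)

/-- The space of vectors of length `n` over the algebraic closure of `ℚ_l`. -/
def V (l : ℕ) [Fact l.Prime] (n : ℕ) : Type := Fin n → PadicAlgCl l

section

variable {l : ℕ} [Fact l.Prime] {n : ℕ}

instance instAddCommGroupV : AddCommGroup (V l n) :=
  (inferInstance : AddCommGroup (Fin n → PadicAlgCl l))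

instance instModuleV : Module (PadicAlgCl l) (V l n) :=
  (inferInstance : Module (PadicAlgCl l) (Fin n → PadicAlgCl l))

instance instModuleQV : Module ℚ_[l] (V l n) :=
  (inferInstance : Module ℚ_[l] (Fin n → PadicAlgCl l))

/-- The matrix `A` applied to the vector `v`. -/
def app (A : Mat l n) (v : V l n) : V l n := Matrix.mulVec A v

/-- `exp (t A)` for a nilpotent matrix `A` and `t ∈ ℚ_l`. -/
def expMul (t : ℚ_[l]) (A : Mat l n) : Mat l n := IsNilpotent.exp (t • A)

end

/-! ### Galois representations -/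

/-- The absolute Galois group of `F`, with the Krull topology. -/
abbrev AbsGal (F : Type u) [Field F] : Type u := Gal(AlgebraicClosure F/F)

/-- The homomorphisms from the absolute Galois group of `F` to `GL_n` of the algebraic closure of
`ℚ_l`. -/
abbrev Rep (F : Type u) [Field F] (l : ℕ) [Fact l.Prime] (n : ℕ) : Type u :=
  AbsGal F →* GL (Fin n) (PadicAlgCl l)

variable {F : Type u} [Field F] {l : ℕ} [Fact l.Prime] {n : ℕ}

/-- The matrix by which `σ` acts in `ρ`. -/
def mat (ρ : Rep F l n) (σ : AbsGal F) : Mat l n := (ρ σ).1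

/-- The representation `ρ` is irreducible. -/
def IsIrreducible (ρ : Rep F l n) : Prop :=
  0 < n ∧ ∀ W : Submodule (PadicAlgCl l) (V l n),
    (∀ σ, ∀ v ∈ W, app (mat ρ σ) v ∈ W) → W = ⊥ ∨ W = ⊤

/-! ### Finite places

A finite place `v` of `F` with an embedding of the algebraic closure of `F` in that of `F_v` is
given by a maximal ideal `P` of the ring of all algebraic integers; the image of the absolute
Galois group of `F_v` in that of `F` is the decomposition group of `P`, that of its inertia group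
is `P.inertia (AbsGal F)`, the group of all `σ` with `σ x - x ∈ P` for all algebraic integers
`x`. -/

/-- The inertia group at `P`. -/
def inertia (P : Ideal (𝓞 (AlgebraicClosure F))) : Subgroup (AbsGal F) := P.inertia (AbsGal F)

/-- `ρ` is unramified at `P`: the inertia group at `P` acts trivially. -/
def UnramifiedAt (ρ : Rep F l n) (P : Ideal (𝓞 (AlgebraicClosure F))) : Prop :=
  ∀ σ ∈ inertia P, ρ σ = 1

/-- The number `q_v` of elements of the residue field of the place of `F` below `P`. -/
def resCard (P : Ideal (𝓞 (AlgebraicClosure F))) : ℕ := Nat.card (𝓞 F ⧸ P.under (𝓞 F))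

/-- `φ` is a geometric Frobenius at `P`: its inverse acts on the algebraic integers modulo `P` by
`x ↦ x ^ q_v`. -/
def IsGeomFrob (P : Ideal (𝓞 (AlgebraicClosure F))) (φ : AbsGal F) : Prop :=
  ∀ x : 𝓞 (AlgebraicClosure F), φ⁻¹ • x - x ^ resCard P ∈ P

/-- The Weil group at `P`, the subgroup generated by the inertia group and the geometric
Frobenius elements. -/
def weil (P : Ideal (𝓞 (AlgebraicClosure F))) : Subgroup (AbsGal F) :=
  Subgroup.closure ({φ | IsGeomFrob P φ} ∪ (inertia P : Set (AbsGal F)))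

/-- The homomorphisms from the Weil group at `P` to `GL_n` of the algebraic closure of `ℚ_l`. -/
abbrev WRep (P : Ideal (𝓞 (AlgebraicClosure F))) (l : ℕ) [Fact l.Prime] (n : ℕ) : Type u :=
  weil P →* GL (Fin n) (PadicAlgCl l)

variable {P : Ideal (𝓞 (AlgebraicClosure F))}

/-- The matrix by which `σ` acts in `r`. -/
def wmat (r : WRep P l n) (σ : weil P) : Mat l n := (r σ).1

/-- `t` is a continuous homomorphism from the inertia group at `P` to `ℚ_l`. -/
def IsInertiaHom (P : Ideal (𝓞 (AlgebraicClosure F))) (t : inertia P → ℚ_[l]) : Prop :=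
  Continuous t ∧ ∀ σ τ, t (σ * τ) = t σ + t τ

/-- The representation `r` of the Weil group at `P` is trivial on an open subgroup of the inertia
group. -/
def IsSmooth (r : WRep P l n) : Prop :=
  ∃ U : Subgroup (AbsGal F), IsOpen (U : Set (AbsGal F)) ∧
    ∀ τ : weil P, (τ : AbsGal F) ∈ inertia P → (τ : AbsGal F) ∈ U → r τ = 1

/-- The pair `(r, N)` is the Weil-Deligne representation attached to `ρ` at `P` (Grothendieck,
Deligne): `N` is nilpotent, `r` is trivial on an open subgroup of inertia, and, for a geometric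
Frobenius `φ` at `P` and a continuous homomorphism `t` from the inertia group at `P` to `ℚ_l`,
`ρ (φ ^ m σ) = r (φ ^ m σ) exp (t(σ) N)` for all integers `m` and all `σ` in the inertia group. The
homomorphism `t` has to be nonzero; it is then unique up to a scalar and serves only to define
`t(σ) N`, so for `N = 0` nothing is required of it. -/
def IsAttached (ρ : Rep F l n) (r : WRep P l n) (N : Mat l n) : Prop :=
  IsNilpotent N ∧ IsSmooth r ∧
    ∃ φ : AbsGal F, IsGeomFrob P φ ∧ ∃ t : inertia P → ℚ_[l], IsInertiaHom P t ∧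
      (N ≠ 0 → ∃ σ, t σ ≠ 0) ∧
      ∀ (m : ℤ) (σ : inertia P) (τ : weil P), (τ : AbsGal F) = φ ^ m * σ →
        mat ρ τ = wmat r τ * expMul (t σ) N

/-- A Weil-Deligne representation is integral if all eigenvalues of all geometric Frobenius
elements are algebraic integers. -/
def IsIntegralWD (r : WRep P l n) : Prop :=
  ∀ φ : weil P, IsGeomFrob P φ → ∀ a : PadicAlgCl l,
    (∃ v : V l n, v ≠ 0 ∧ app (wmat r φ) v = a • v) → IsIntegral ℤ a

/-- `a` is an algebraic number all of whose complex conjugates have absolute value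
`q ^ (k / 2)`. -/
def HasWeight (q : ℕ) (k : ℤ) (a : PadicAlgCl l) : Prop :=
  IsAlgebraic ℚ a ∧ ∀ z : ℂ, Polynomial.aeval z (minpoly ℚ a) = 0 → ‖z‖ = (q : ℝ) ^ ((k : ℝ) / 2)

/-- `M` is the monodromy filtration of the nilpotent matrix `N`: the increasing, exhaustive and
separated filtration with `N M_j ⊆ M_(j-2)` for which `N ^ j` induces an isomorphism from the
`j`-th to the `(-j)`-th graded piece for all `j ≥ 0`. -/
structure IsMonodromyFiltration (N : Mat l n) (M : ℤ → Submodule (PadicAlgCl l) (V l n)) :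
    Prop where
  mono : Monotone M
  bot : ∃ a, M a = ⊥
  top : ∃ b, M b = ⊤
  map : ∀ j, ∀ v ∈ M j, app N v ∈ M (j - 2)
  inj : ∀ j : ℕ, ∀ v ∈ M j, app (N ^ j) v ∈ M (-j - 1) → v ∈ M (j - 1)
  surj : ∀ j : ℕ, ∀ v ∈ M (-j), ∃ w ∈ M j, v - app (N ^ j) w ∈ M (-j - 1)

/-- The Weil-Deligne representation `(r, N)` is pure of weight `w`: the eigenvalues of the
geometric Frobenius elements on the `j`-th graded piece of the monodromy filtration are algebraic
numbers all of whose complex conjugates have absolute value `q_v ^ ((w + j) / 2)`. -/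
def IsPureWD (w : ℤ) (r : WRep P l n) (N : Mat l n) : Prop :=
  ∃ M : ℤ → Submodule (PadicAlgCl l) (V l n), IsMonodromyFiltration N M ∧
    ∀ φ : weil P, IsGeomFrob P φ → ∀ (j : ℤ) (a : PadicAlgCl l),
      (∃ v ∈ M j, v ∉ M (j - 1) ∧ app (wmat r φ) v - a • v ∈ M (j - 1)) →
        HasWeight (resCard P) (w + j) a

/-- **Condition 2**, with the weight `w`: at every finite place of `F` not above `l` the
Weil-Deligne representation attached to `ρ` is integral and pure of weight `w`. -/
def ConditionTwo (ρ : Rep F l n) (w : ℤ) : Prop :=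
  ∀ P : Ideal (𝓞 (AlgebraicClosure F)), P.IsMaximal → (l : 𝓞 (AlgebraicClosure F)) ∉ P →
    ∃ (r : WRep P l n) (N : Mat l n), IsAttached ρ r N ∧ IsIntegralWD r ∧ IsPureWD w r N

/-! ### Places above `l`

A place `v` of `F` above `l` with an embedding of the algebraic closure of `F` in that of `F_v` is
given by a homomorphism `j` from the algebraic closure of `F` to that of `ℚ_l`: the field `F_v` is
the closure of `j(F)`, and its absolute Galois group consists of the automorphisms `g` of the
algebraic closure of `ℚ_l` over `ℚ_l` which fix `j(F)`. It is mapped to the absolute Galois group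
of `F` by sending `g` to the `σ` with `g ∘ j = j ∘ σ`. -/

/-- The canonical map from a commutative ring to its localisation at `S`. -/
def toLoc {A : Type u} [CommRing A] (S : Submonoid A) : A →+* Localization S :=
  algebraMap A (Localization S)

/-- The ring `A_inf[1/l]`, the localisation at `l` of the ring of Witt vectors of the tilt of the
ring of integers of `ℂ_l`. -/
def Ainv (l : ℕ) [Fact l.Prime] : Type := Localization.Away (l : WittVector l (PreTilt 𝓞_ℂ_[l] l))

/-- Fontaine's ring `B_dR^+`: Mathlib's `BDeRhamPlus` for the ring of integers of `ℂ_l`. -/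
def BdRPlus (l : ℕ) [Fact l.Prime] : Type := BDeRhamPlus 𝓞_ℂ_[l] l

/-- Fontaine's ring `B_dR`: Mathlib's `BDeRham` for the ring of integers of `ℂ_l` (the two types
are the same by `Pool.Agent.W292.FM.bDeRham_eq`, which is `rfl`). -/
def BdR (l : ℕ) [Fact l.Prime] : Type := Localization (genSub 𝓞_ℂ_[l] l)

instance instCommRingAinv : CommRing (Ainv l) :=
  (inferInstance : CommRing (Localization.Away (l : WittVector l (PreTilt 𝓞_ℂ_[l] l))))

instance instCommRingBdRPlus : CommRing (BdRPlus l) :=
  (inferInstance : CommRing (BDeRhamPlus 𝓞_ℂ_[l] l))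

set_option warn.classDefReducibility false in
/-- The ring structure of `B_dR`. -/
def commRingBdR (l : ℕ) [Fact l.Prime] : CommRing (BdR l) :=
  (inferInstance : CommRing (Localization (genSub 𝓞_ℂ_[l] l)))

instance instCommRingBdR : CommRing (BdR l) := commRingBdR l

/-- The canonical map from `ℚ_l` to `A_inf[1/l]`. -/
def ofQp (l : ℕ) [Fact l.Prime] : ℚ_[l] →+* Ainv l := qpMap 𝓞_ℂ_[l] l

/-- The canonical map from `A_inf[1/l]` to `B_dR^+`. -/
def ofAinv (l : ℕ) [Fact l.Prime] : Ainv l →+* BdRPlus l := toPlus (R := 𝓞_ℂ_[l]) l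

/-- The canonical map from `B_dR^+` to `B_dR`. -/
def ofPlus (l : ℕ) [Fact l.Prime] : BdRPlus l →+* BdR l := toLoc (genSub 𝓞_ℂ_[l] l)

instance instAlgebraBdR : Algebra ℚ_[l] (BdR l) :=
  ((ofPlus l).comp ((ofAinv l).comp (ofQp l))).toAlgebra

/-- The natural action of `g` on `B_dR`. -/
def galBdR (g : Gal(PadicAlgCl l/ℚ_[l])) : BdR l →+* BdR l := bdrMap l (intMap l g)

theorem galBdR_ofQp (g : Gal(PadicAlgCl l/ℚ_[l])) (c : ℚ_[l]) :
    galBdR g (algebraMap ℚ_[l] (BdR l) c) = algebraMap ℚ_[l] (BdR l) c := by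
  change bdrMap l (intMap l g) (algebraMap _ _ (toPlus l (qpMap 𝓞_ℂ_[l] l c))) =
    algebraMap _ _ (toPlus l (qpMap 𝓞_ℂ_[l] l c))
  rw [bdrMap_algebraMap, plusMap_toPlus, locMap_qpMap]

/-- The natural action of `g` on `B_dR`, as a `ℚ_l`-linear map. -/
def galLin (g : Gal(PadicAlgCl l/ℚ_[l])) : BdR l →ₗ[ℚ_[l]] BdR l :=
  { toFun := galBdR g
    map_add' := map_add _
    map_smul' := fun c x => by
      rw [Algebra.smul_def, map_mul, galBdR_ofQp, Algebra.smul_def, RingHom.id_apply] }

/-- The matrix `A` as a `ℚ_l`-linear map. -/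
def matLin (A : Mat l n) : V l n →ₗ[ℚ_[l]] V l n :=
  { toFun := app A
    map_add' := fun x y => Matrix.mulVec_add A x y
    map_smul' := fun c x => Matrix.mulVec_smul A c x }

/-- `B_dR ⊗ V`, where `V` is the space of vectors of length `n`; the tensor product is over
`ℚ_l`. -/
def BV (l : ℕ) [Fact l.Prime] (n : ℕ) : Type := BdR l ⊗[ℚ_[l]] V l n

instance instAddCommGroupBV : AddCommGroup (BV l n) :=
  (inferInstance : AddCommGroup (BdR l ⊗[ℚ_[l]] V l n))

instance instModuleBV : Module (BdR l) (BV l n) :=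
  (inferInstance : Module (BdR l) (BdR l ⊗[ℚ_[l]] V l n))

/-- The element `b ⊗ v` of `B_dR ⊗ V`. -/
def pure (b : BdR l) (v : V l n) : BV l n := b ⊗ₜ[ℚ_[l]] v

/-- The action of `(g, σ)` on `B_dR ⊗ V`, where `V` is the space of the representation `ρ`; it is
the tensor product over `ℚ_l` of the natural action of `g` on `B_dR` and that of `ρ σ` on `V`. -/
def act (ρ : Rep F l n) (g : Gal(PadicAlgCl l/ℚ_[l])) (σ : AbsGal F) (x : BV l n) :
    BV l n :=
  TensorProduct.map (galLin g) (matLin (mat ρ σ)) x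

/-- `D_dR` of the restriction of `ρ` to the absolute Galois group of `F_v`: the invariants of this
group in `B_dR ⊗ V`. -/
def DdR (ρ : Rep F l n) (j : AlgebraicClosure F →+* PadicAlgCl l) : Set (BV l n) :=
  {x | ∀ (g : Gal(PadicAlgCl l/ℚ_[l])) (σ : AbsGal F), (∀ y, g (j y) = j (σ y)) →
    act ρ g σ x = x}

/-- The restriction of `ρ` to the absolute Galois group of `F_v` is de Rham: `B_dR ⊗ V` is
generated over `B_dR` by its invariants. (For a finite-dimensional `V` over `ℚ_l` this says that
the dimension over `F_v` of the space of the invariants is that of `V`; for `V` over the algebraic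
closure of `ℚ_l` it says the same of the models of `V` over finite extensions of `ℚ_l`.) -/
def IsDeRhamAt (ρ : Rep F l n) (j : AlgebraicClosure F →+* PadicAlgCl l) : Prop :=
  Submodule.span (BdR l) (DdR ρ j) = ⊤

/-- The image of `B_dR^+ ⊗ V` in `B_dR ⊗ V`. -/
def plusBV (l : ℕ) [Fact l.Prime] (n : ℕ) : AddSubgroup (BV l n) :=
  AddSubgroup.closure {x | ∃ (b : BdRPlus l) (v : V l n), x = pure (ofPlus l b) v}

/-- **Condition 1**: at every place above `l` the representation `ρ` is de Rham and all its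
Hodge-Tate weights are `≥ 0`. As the Hodge-Tate weights (normalised so that the cyclotomic
character has weight `-1`) are the jumps of the filtration of `D_dR` by the `t ^ i B_dR^+ ⊗ V`, the
last condition says that `D_dR` is contained in `B_dR^+ ⊗ V`. -/
def ConditionOne (ρ : Rep F l n) : Prop :=
  ∀ j : AlgebraicClosure F →+* PadicAlgCl l,
    IsDeRhamAt ρ j ∧ ∀ x ∈ DdR ρ j, x ∈ plusBV l n

/-! ### The character -/

theorem app_zero (A : Mat l n) : app A 0 = 0 := Matrix.mulVec_zero A

theorem zero_app (v : V l n) : app 0 v = 0 := Matrix.zero_mulVec v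

theorem one_app (v : V l n) : app 1 v = v := Matrix.one_mulVec v

theorem expMul_zero (t : ℚ_[l]) : expMul t (0 : Mat l n) = 1 := by
  rw [expMul, smul_zero, IsNilpotent.exp_zero]

/-- The character with values in `GL_1` attached to a character with values in the units. -/
def toRep (c : AbsGal F →* (PadicAlgCl l)ˣ) : Rep F l 1 :=
  (Units.map ((Matrix.scalar (Fin 1) : PadicAlgCl l →+* Matrix (Fin 1) (Fin 1) (PadicAlgCl l)) :
    PadicAlgCl l →* Matrix (Fin 1) (Fin 1) (PadicAlgCl l))).comp c

theorem mat_toRep (c : AbsGal F →* (PadicAlgCl l)ˣ) (σ : AbsGal F) :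
    mat (toRep c) σ = Matrix.scalar (Fin 1) (c σ : PadicAlgCl l) := rfl

theorem scalar_mulVec (a : PadicAlgCl l) (v : Fin 1 → PadicAlgCl l) :
    Matrix.mulVec (Matrix.scalar (Fin 1) a) v = a • v := by simp

theorem app_toRep (c : AbsGal F →* (PadicAlgCl l)ˣ) (σ : AbsGal F) (v : V l 1) :
    app (mat (toRep c) σ) v = (c σ : PadicAlgCl l) • v :=
  scalar_mulVec _ v

theorem algebraMap_smul_fun (y : ℚ_[l]) (v : Fin n → PadicAlgCl l) :
    algebraMap ℚ_[l] (PadicAlgCl l) y • v = y • v :=
  algebraMap_smul _ _ _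

/-- The vector `(1)` of length one. -/
def oneV (l : ℕ) [Fact l.Prime] : V l 1 := fun _ => 1

theorem toRep_eq_one {c : AbsGal F →* (PadicAlgCl l)ˣ} {σ : AbsGal F} (h : c σ = 1) :
    toRep c σ = 1 := by
  simp only [toRep, MonoidHom.comp_apply, h, map_one]

theorem continuous_toRep {c : AbsGal F →* (PadicAlgCl l)ˣ} (hc : Continuous c) :
    Continuous (toRep c) := by
  refine (Continuous.units_map _ ?_).comp hc
  change Continuous (fun a : PadicAlgCl l => Matrix.scalar (Fin 1) a)
  simp only [Matrix.scalar_apply]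
  fun_prop

theorem isIrreducible_toRep (c : AbsGal F →* (PadicAlgCl l)ˣ) : IsIrreducible (toRep c) := by
  refine ⟨one_pos, fun W _ => ?_⟩
  have h : IsSimpleModule (PadicAlgCl l) (Fin 1 → PadicAlgCl l) :=
    isSimpleModule_iff_finrank_eq_one.2 (by simp)
  have h' : IsSimpleModule (PadicAlgCl l) (V l 1) := h
  exact eq_bot_or_eq_top W

/-! ### Frobenius eigenvalues -/

theorem hasWeight_of_pow_eq {q m : ℕ} (hm : 0 < m) {a : PadicAlgCl l}
    (h : a ^ (2 * m) = (q : PadicAlgCl l) ^ m) : IsIntegral ℤ a ∧ HasWeight q 1 a := by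
  have hint : IsIntegral ℤ a := by
    refine IsIntegral.of_pow (n := 2 * m) (by omega) ?_
    rw [h]
    exact (isIntegral_natCast _).pow m
  refine ⟨hint, (hint.tower_top (A := ℚ)).isAlgebraic, fun z hz => ?_⟩
  have h1 : minpoly ℚ a ∣ (Polynomial.X ^ (2 * m) - Polynomial.C ((q : ℚ) ^ m)) := by
    apply minpoly.dvd
    simp [h]
  have h2 : Polynomial.aeval z (Polynomial.X ^ (2 * m) - Polynomial.C ((q : ℚ) ^ m)) = 0 := by
    obtain ⟨f, hf⟩ := h1
    rw [hf, map_mul, hz, zero_mul]
  have h3 : z ^ (2 * m) = (q : ℂ) ^ m := by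
    have : Polynomial.aeval z (Polynomial.X ^ (2 * m) - Polynomial.C ((q : ℚ) ^ m)) =
        z ^ (2 * m) - (q : ℂ) ^ m := by simp
    rw [this, sub_eq_zero] at h2
    exact h2
  have h4 : ‖z‖ ^ (2 * m) = (q : ℝ) ^ m := by
    rw [← norm_pow, h3, norm_pow, Complex.norm_natCast]
  have h5 : ((q : ℝ) ^ (((1 : ℤ) : ℝ) / 2)) ^ (2 * m) = (q : ℝ) ^ m := by
    rw [← Real.rpow_natCast, ← Real.rpow_mul (Nat.cast_nonneg q)]
    push_cast
    rw [show (1 : ℝ) / 2 * (2 * (m : ℝ)) = (m : ℝ) by ring, Real.rpow_natCast]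
  exact (pow_left_inj₀ (norm_nonneg z) (Real.rpow_nonneg (Nat.cast_nonneg q) _)
    (by omega : 2 * m ≠ 0)).1 (h4.trans h5.symm)

/-! ### Weil-Deligne representations of unramified representations of weight `w` -/

variable [NumberField F]

theorem conditionTwo_of_scalar (c : AbsGal F →* (PadicAlgCl l)ˣ) (w : ℤ)
    (hur : ∀ P : Ideal (𝓞 (AlgebraicClosure F)), P.IsMaximal →
      (l : 𝓞 (AlgebraicClosure F)) ∉ P → UnramifiedAt (toRep c) P)
    (hfr : ∀ P : Ideal (𝓞 (AlgebraicClosure F)), P.IsMaximal →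
      (l : 𝓞 (AlgebraicClosure F)) ∉ P → ∀ φ : AbsGal F, IsGeomFrob P φ →
        IsIntegral ℤ (c φ : PadicAlgCl l) ∧ HasWeight (resCard P) w (c φ : PadicAlgCl l)) :
    ConditionTwo (toRep c) w := by
  intro P hP hlP
  have happ : ∀ (φ : weil P) (v : V l 1),
      app (wmat (P := P) ((toRep c).comp (weil P).subtype) φ) v = (c φ : PadicAlgCl l) • v :=
    fun φ v => app_toRep c φ v
  refine ⟨(toRep c).comp (weil P).subtype, 0, ⟨IsNilpotent.zero, ?_, ?_⟩, ?_, ?_⟩
  · exact ⟨⊤, isOpen_univ, fun σ hσ _ => hur P hP hlP σ hσ⟩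
  · obtain ⟨τ, hτ⟩ := exists_frobenius P
    refine ⟨τ⁻¹, fun x => by rw [inv_inv]; exact hτ x, fun _ => 0,
      ⟨continuous_const, fun _ _ => (add_zero _).symm⟩, fun h => absurd rfl h, fun m σ τ' _ => ?_⟩
    rw [expMul_zero, mul_one]
    rfl
  · rintro φ hφ a ⟨v, hv, h⟩
    rw [happ] at h
    have h2 : (c φ : PadicAlgCl l) = a := smul_left_injective _ hv h
    rw [← h2]
    exact (hfr P hP hlP φ hφ).1
  · classical
    refine ⟨fun j => if 0 ≤ j then ⊤ else ⊥, ⟨?_, ⟨-1, by simp⟩, ⟨0, by simp⟩, ?_, ?_, ?_⟩, ?_⟩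
    · intro a b hab
      simp only
      split_ifs with h1 h2
      · exact le_rfl
      · omega
      · exact bot_le
      · exact le_rfl
    · intro j v _
      rw [zero_app]
      exact Submodule.zero_mem _
    · intro j v hv h
      rcases Nat.eq_zero_or_pos j with rfl | hj
      · rw [pow_zero, one_app] at h
        simpa using h
      · have : (0 : ℤ) ≤ (j : ℤ) - 1 := by omega
        simp only [this, if_true]
        trivial
    · intro j v hv
      rcases Nat.eq_zero_or_pos j with rfl | hj
      · refine ⟨v, by simp, ?_⟩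
        rw [pow_zero, one_app, sub_self]
        exact Submodule.zero_mem _
      · have : ¬ (0 : ℤ) ≤ -(j : ℤ) := by omega
        simp only [this, if_false, Submodule.mem_bot] at hv
        refine ⟨0, Submodule.zero_mem _, ?_⟩
        rw [hv, app_zero, sub_zero]
        exact Submodule.zero_mem _
    · rintro φ hφ j a ⟨v, hv1, hv2, h⟩
      have hj : j = 0 := by
        rcases lt_trichotomy j 0 with h0 | h0 | h0
        · exfalso
          apply hv2
          have h1 : ¬ (0 : ℤ) ≤ j := by omega
          simp only [h1, if_false, Submodule.mem_bot] at hv1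
          rw [hv1]
          exact Submodule.zero_mem _
        · exact h0
        · exfalso
          apply hv2
          have h1 : (0 : ℤ) ≤ j - 1 := by omega
          simp only [h1, if_true]
          trivial
      subst hj
      have h1 : ¬ (0 : ℤ) ≤ 0 - 1 := by omega
      simp only [h1, if_false, Submodule.mem_bot] at hv2 h
      rw [happ, sub_eq_zero] at h
      have h3 : (c φ : PadicAlgCl l) = a := smul_left_injective _ hv2 h
      rw [← h3, add_zero]
      exact (hfr P hP hlP φ hφ).2

/-! ### The character is not de Rham -/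

/-- Contraction of `B_dR ⊗ V` with a linear form on `V`. -/
def contr (lam : V l n →ₗ[ℚ_[l]] ℚ_[l]) : BdR l ⊗[ℚ_[l]] V l n →ₗ[ℚ_[l]] BdR l :=
  (TensorProduct.rid ℚ_[l] (BdR l)).toLinearMap ∘ₗ LinearMap.lTensor (BdR l) lam

theorem contr_tmul (lam : V l n →ₗ[ℚ_[l]] ℚ_[l]) (b : BdR l)
    (v : V l n) : contr lam (b ⊗ₜ v) = lam v • b := by
  simp [contr]

theorem exists_contr_ne_zero {x : BdR l ⊗[ℚ_[l]] V l n} (hx : x ≠ 0) :
    ∃ lam : V l n →ₗ[ℚ_[l]] ℚ_[l], contr lam x ≠ 0 := by
  classical
  let e := Module.Basis.ofVectorSpace ℚ_[l] (V l n)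
  have h1 : TensorProduct.equivFinsuppOfBasisRight (M := BdR l) e x ≠ 0 := by
    intro h
    exact hx ((LinearEquiv.map_eq_zero_iff _).1 h)
  obtain ⟨i, hi⟩ := Finsupp.ne_iff.1 h1
  refine ⟨e.coord i, ?_⟩
  have h2 : ∀ y : BdR l ⊗[ℚ_[l]] V l n,
      TensorProduct.equivFinsuppOfBasisRight (M := BdR l) e y i = contr (e.coord i) y := by
    intro y
    induction y with
    | zero => simp
    | tmul b v =>
      rw [contr_tmul, TensorProduct.equivFinsuppOfBasisRight_apply_tmul_apply]
      rfl
    | add y z hy hz => rw [map_add, map_add, Finsupp.add_apply, hy, hz]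
  rw [← h2]
  simpa using hi

omit [NumberField F] in
theorem contr_act (c : AbsGal F →* (PadicAlgCl l)ˣ) (g : Gal(PadicAlgCl l/ℚ_[l])) (σ : AbsGal F)
    {y : ℚ_[l]} (hy : (c σ : PadicAlgCl l) = algebraMap ℚ_[l] (PadicAlgCl l) y)
    (lam : V l 1 →ₗ[ℚ_[l]] ℚ_[l]) (x : BdR l ⊗[ℚ_[l]] V l 1) :
    contr lam (TensorProduct.map (galLin g) (matLin (mat (toRep c) σ)) x) =
      y • galBdR g (contr lam x) := by
  induction x with
  | zero => simp
  | tmul b v =>
    have h2 : matLin (mat (toRep c) σ) v = y • v := by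
      change app (mat (toRep c) σ) v = y • v
      rw [app_toRep, hy]
      exact algebraMap_smul_fun y v
    have h3 : galBdR g (lam v • b) = lam v • galBdR g b := (galLin g).map_smul (lam v) b
    have h4 : galLin g b = galBdR g b := rfl
    rw [TensorProduct.map_tmul, h2, contr_tmul, contr_tmul, map_smul, h3, h4, smul_smul,
      smul_eq_mul]
  | add x z hx hz => simp only [map_add, smul_add, hx, hz]

instance instNontrivialBdR : Nontrivial (BdR l) := nontrivial_BB (p := l)

theorem no_eigenvector' (H : Subgroup Gal(PadicAlgCl l/ℚ_[l])) [H.FiniteIndex]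
    (η : Gal(PadicAlgCl l/ℚ_[l]) → ℚ_[l])
    (hη : ∀ g ∈ H, η g ^ 2 = ((cyc l g : ℤ_[l]) : ℚ_[l]))
    (b : BdR l) (hb : ∀ g ∈ H, galBdR g b = η g • b) : b = 0 := by
  refine no_eigenvector (p := l) H (c := 1) odd_one η
    (fun g hg => by rw [zpow_one]; exact hη g hg) b fun g hg => ?_
  have h := hb g hg
  rw [Algebra.smul_def] at h
  exact h

theorem not_isDeRhamAt {s : ℤ_[l]ˣ →* (PadicAlgCl l)ˣ}
    (hs : ∀ u ∈ U3 l, ∃ y : ℚ_[l], (s u : PadicAlgCl l) = algebraMap ℚ_[l] (PadicAlgCl l) y ∧
      y ^ 2 = ((u : ℤ_[l]) : ℚ_[l])) (j : AlgebraicClosure F →+* PadicAlgCl l) :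
    ¬ IsDeRhamAt (toRep (s.comp (chi F l))⁻¹) j := by
  classical
  intro hdr
  -- a nonzero invariant
  obtain ⟨x, hx, hx0⟩ : ∃ x ∈ DdR (toRep (s.comp (chi F l))⁻¹) j, x ≠ 0 := by
    by_contra hcon
    push Not at hcon
    have h1 : Submodule.span (BdR l) (DdR (toRep (s.comp (chi F l))⁻¹) j) = ⊥ := by
      rw [Submodule.span_eq_bot]
      exact hcon
    rw [IsDeRhamAt, h1] at hdr
    have h2 : (1 : BdR l) ⊗ₜ[ℚ_[l]] (oneV l) = 0 := by
      have h3 : pure (1 : BdR l) (oneV l) ∈
          (⊥ : Submodule (BdR l) (BV l 1)) := by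
        rw [hdr]; trivial
      exact (Submodule.mem_bot (BdR l)).1 h3
    have h4 : (oneV l) ≠ 0 := by
      intro h
      exact one_ne_zero (congrFun h 0)
    apply h4
    rw [← Module.forall_dual_apply_eq_zero_iff ℚ_[l]]
    intro lam
    have h5 := congrArg (contr lam) h2
    rw [contr_tmul, map_zero, Algebra.smul_def, mul_one] at h5
    exact (map_eq_zero (algebraMap ℚ_[l] (BdR l))).1 h5
  obtain ⟨lam, hlam⟩ := exists_contr_ne_zero (x := x) hx0
  obtain ⟨H1, hH1, hfix⟩ := exists_finiteIndex j
  have hH2 : ((U3 l).comap (cyc l)).FiniteIndex := by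
    refine ⟨?_⟩
    rw [Subgroup.index_comap]
    exact (inferInstance : ((U3 l).subgroupOf (cyc l).range).FiniteIndex).index_ne_zero
  have hsq : ∀ g : Gal(PadicAlgCl l/ℚ_[l]), ∃ y : ℚ_[l], g ∈ (U3 l).comap (cyc l) →
      (s (cyc l g) : PadicAlgCl l) = algebraMap ℚ_[l] (PadicAlgCl l) y ∧
        y ^ 2 = ((cyc l g : ℤ_[l]) : ℚ_[l]) := by
    intro g
    by_cases hg : g ∈ (U3 l).comap (cyc l)
    · obtain ⟨y, hy⟩ := hs (cyc l g) hg
      exact ⟨y, fun _ => hy⟩
    · exact ⟨0, fun h => absurd h hg⟩
  choose η hη using hsq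
  refine hlam (no_eigenvector' (H1 ⊓ (U3 l).comap (cyc l)) η (fun g hg => (hη g hg.2).2) _
    fun g hg => ?_)
  obtain ⟨σ, hσ⟩ := exists_restrict j g (hfix g hg.1)
  obtain ⟨h1, h2⟩ := hη g hg.2
  have hη0 : η g ≠ 0 := by
    intro h
    rw [h, map_zero] at h1
    exact (s (cyc l g)).ne_zero h1
  have h3 : (((s.comp (chi F l))⁻¹ σ : (PadicAlgCl l)ˣ) : PadicAlgCl l) =
      algebraMap ℚ_[l] (PadicAlgCl l) (η g)⁻¹ := by
    rw [map_inv₀, ← h1, cyc_eq_chi j g σ hσ]
    simp
  have h4 := contr_act _ g σ h3 lam x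
  have h5 : TensorProduct.map (galLin g) (matLin (mat (toRep (s.comp (chi F l))⁻¹) σ)) x = x :=
    hx g σ hσ
  rw [h5] at h4
  conv_rhs => rw [h4, smul_smul, mul_inv_cancel₀ hη0, one_smul]

/-! ### The counterexample -/

/-- For every number field `F` and every prime `l` there is a continuous irreducible representation
`ρ` of the absolute Galois group of `F` over the algebraic closure of `ℚ_l`, of dimension one and
unramified at all finite places not above `l`, which satisfies condition 2 (with `w = 1`) but not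
condition 1: it is not de Rham at any place above `l`. -/
theorem result (F : Type u) [Field F] [NumberField F] (l : ℕ) [Fact l.Prime] :
    ∃ ρ : Rep F l 1, Continuous ρ ∧ IsIrreducible ρ ∧
      (∀ P : Ideal (𝓞 (AlgebraicClosure F)), P.IsMaximal → (l : 𝓞 (AlgebraicClosure F)) ∉ P →
        UnramifiedAt ρ P) ∧
      ConditionTwo ρ 1 ∧ ¬ ConditionOne ρ ∧
      ∀ j : AlgebraicClosure F →+* PadicAlgCl l, ¬ IsDeRhamAt ρ j := by
  obtain ⟨s, hs1, hs2, m, hm, hs3⟩ := exists_sqrt_char (p := l)
  have hur : ∀ P : Ideal (𝓞 (AlgebraicClosure F)), P.IsMaximal →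
      (l : 𝓞 (AlgebraicClosure F)) ∉ P → UnramifiedAt (toRep (s.comp (chi F l))⁻¹) P := by
    intro P hP hlP σ hσ
    apply toRep_eq_one
    have : P.IsPrime := hP.isPrime
    rw [MonoidHom.inv_apply, MonoidHom.comp_apply, chi_eq_one_of_inertia P hlP hσ, map_one,
      inv_one]
  have hnd := not_isDeRhamAt (F := F) hs2
  refine ⟨toRep (s.comp (chi F l))⁻¹, ?_, isIrreducible_toRep _, hur, ?_, ?_, hnd⟩
  · exact continuous_toRep (hs1.comp continuous_chi).inv
  · refine conditionTwo_of_scalar _ 1 hur fun P hP hlP φ hφ => ?_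
    have : P.IsPrime := hP.isPrime
    refine hasWeight_of_pow_eq hm ?_
    have h1 : ((chi F l φ⁻¹ : ℤ_[l]ˣ) : ℤ_[l]) = resCard P := chi_eq_natCast P hlP φ⁻¹ _ hφ
    have h2 : (s.comp (chi F l))⁻¹ φ = s (chi F l φ⁻¹) := by
      rw [MonoidHom.inv_apply, MonoidHom.comp_apply, map_inv, map_inv]
    rw [h2, hs3, h1]
    simp
  · intro h
    have halg : Algebra.IsAlgebraic ℚ (AlgebraicClosure F) :=
      Algebra.IsAlgebraic.trans ℚ F (AlgebraicClosure F)
    let j : AlgebraicClosure F →ₐ[ℚ] PadicAlgCl l := IsAlgClosed.lift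
    exact hnd j (h j).1

end Pool.Agent.Results.MP_395897_nt.HalfTateTwist

end
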